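import Pool.Agent.H70.EH.Defs

/-!
# An oracle relative to which alternating exponential time is contained in BQP: module targets
-/

set_option autoImplicit false

namespace Pool.Agent.H70.EH

open Finset Pool.Agent.H6.NB Pool.Agent.H70.OQ

/-! ## Part A: Fourier coefficients -/

/-- RDT: decision trees of depth `w`. -/
def T_RDT : Prop := ∀ (V : Type) [Fintype V] [DecidableEq V] (t : Pool.Agent.H68.AC.DT V) (w : ℕ),
  t.depth ≤ w → L12 (fun y => bi (t.eval y)) ≤ (w : ℝ) ^ 2 * mn fun y => bi (t.eval y)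

/-- RL2: the second level of the Fourier spectrum of a formula, relative to its mean. -/
def T_RL2 : Prop := ∀ (V : Type) [Fintype V] [DecidableEq V] (S d w : ℕ) (f : (V → Bool) → Bool),
  1 ≤ w → Cl V S (d + 1) f → L12 (fun y => bi (f y)) ≤
    (128 * (w : ℝ)) ^ (2 * (d + 1)) * ((w : ℝ) ^ 2 * mn (fun y => bi (f y)) +
      (Fintype.card V : ℝ) ^ 2 * ((S : ℝ) + 1) ^ (d + 1) / 2 ^ w)

/-- STR: one step of the walk, relative version. -/
def T_STR : Prop := ∀ (q : ℕ) (F : (VV q → Bool) → ℝ) (Λ τ δ : ℝ) (W : VV q → ℝ),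
  (∀ ρ, L12 (rst ρ F) ≤ Λ * mn (rst ρ F) + τ) → (∀ y, |F y| ≤ 1) → (∀ v, |W v| ≤ 1 / 2) → 0 ≤ δ →
  4 * δ * (2 ^ q * √(2 ^ q)) ≤ 1 →
  mle F W * (1 - 4 * δ ^ 2 * Λ / √(2 ^ q)) - 4 * δ ^ 2 * τ / √(2 ^ q) -
    (4 * δ * (2 ^ q * √(2 ^ q))) ^ 3 ≤
  (∑ r : (Fin q → Bool) → Bool, mle F (fun v => W v + δ * dir q r v)) / 2 ^ 2 ^ q

/-! ## Part B: the walk -/

/-- WLM: estimates for the step size. -/
def T_WLM : Prop := ∀ q : ℕ, 0 ≤ dm q ∧ (Tm q : ℝ) * dm q ^ 2 = eps2 q ∧ dm q * √(2 ^ q) ≤ 1 / 2 ∧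
  (10 ≤ q → 4 * dm q * (2 ^ q * √(2 ^ q)) ≤ 1 ∧
    (Tm q : ℝ) * (4 * dm q * (2 ^ q * √(2 ^ q))) ^ 3 ≤ 1 / 2 ^ 2 ^ (q - 2))

/-- MUV: the two distributions. -/
def T_MUV : Prop := ∀ (b : Bool) (q : ℕ), (∀ p, 0 ≤ mv b q p) ∧ ∑ p, mv b q p = 1 ∧
  ∀ F : (VV q → Bool) → ℝ, ∑ p, mv b q p * F p =
    if b then (AA q (dm q))^[Tm q] (mle F) (fun _ => 0) else mle F fun _ => 0

open Classical in
/-- CSV: the walk is rarely stopped. -/
def T_CSV : Prop := ∀ q : ℕ, (AA q (dm q))^[Tm q]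
  (fun W => if ∀ v, |W v| ≤ 1 / 2 then 1 else 0) (fun _ => 0) ≥ 1 / 2

/-- PHV: the expectation of the squared forrelation. -/
def T_PHV : Prop := ∀ q : ℕ, eps2 q ^ 2 / 4 ≤ ∑ p, mv true q p * phi q p ^ 2

/-- RDI: formulas do not distinguish the two distributions, relative version. -/
def T_RDI : Prop := ∀ (q : ℕ) (F : (VV q → Bool) → ℝ) (Λ τ : ℝ), 10 ≤ q → 0 ≤ Λ → Λ ≤ √(2 ^ q) →
  0 ≤ τ → (∀ ρ, L12 (rst ρ F) ≤ Λ * mn (rst ρ F) + τ) → (∀ y, 0 ≤ F y ∧ F y ≤ 1) →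
  (1 - Λ / √(2 ^ q)) * ∑ p, mv false q p * F p - (τ + 1 / 2 ^ 2 ^ (q - 2)) ≤ ∑ p, mv true q p * F p

/-! ## Part C: the copies -/

/-- RCP: replacement of independent copies, relative version. -/
def T_RCP : Prop := ∀ (U T : Type) [Fintype U] [DecidableEq U] [Fintype T] [DecidableEq T]
  (a b : T → ℝ) (F : (U → T) → ℝ) (ε τ : ℝ), (∀ p, 0 ≤ a p) → (∀ p, 0 ≤ b p) → ∑ p, a p = 1 →
  ∑ p, b p = 1 → (∀ P, 0 ≤ F P) → 0 ≤ ε → ε ≤ 1 → 0 ≤ τ →
  (∀ P u, (1 - ε) * ∑ p, b p * F (Function.update P u p) - τ ≤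
    ∑ p, a p * F (Function.update P u p)) →
  (1 - Fintype.card U * ε) * ∑ P, (∏ u, b (P u)) * F P - Fintype.card U * τ ≤
    ∑ P, (∏ u, a (P u)) * F P

open Classical in
/-- CHA: Chernoff bounds. -/
def T_CHA : Prop := ∀ (U T : Type) [Fintype U] [DecidableEq U] [Nonempty U] [Fintype T] [DecidableEq T]
  (m : T → ℝ) (g : T → ℝ) (a : ℝ), (∀ p, 0 ≤ m p) → ∑ p, m p = 1 → (∀ p, 0 ≤ g p ∧ g p ≤ 1) → 0 ≤ a →
  (∑ p, m p * g p ≤ a / 4 → ∑ P : U → T, (∏ u, m (P u)) *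
    (if (∑ u, g (P u)) / Fintype.card U ≤ a then 0 else 1) ≤ Real.exp (-(Fintype.card U * a / 2))) ∧
  (a ≤ ∑ p, m p * g p → ∑ P : U → T, (∏ u, m (P u)) *
    (if a / 2 ≤ (∑ u, g (P u)) / Fintype.card U then 0 else 1) ≤
    Real.exp (-(Fintype.card U * a / 8)))

open Classical in
/-- CHE: the copies say the bit `b` with high probability. -/
def T_CHE : Prop := ∀ (U : Type) [Fintype U] [DecidableEq U] [Nonempty U] (q : ℕ) (b : Bool), 100 ≤ q →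
  ∑ P : U → VV q → Bool, (∏ u, mv b q (P u)) * (if Says q b P then 0 else 1) ≤
    Real.exp (-(Fintype.card U * eps2 q ^ 2 / 64))

open Classical in
/-- RIN: replacement of the copies of one instance. -/
def T_RIN : Prop := ∀ (U : Type) [Fintype U] [DecidableEq U] [Nonempty U] (q : ℕ)
  (F : (U → VV q → Bool) → ℝ) (Λ τ : ℝ) (b : Bool), 100 ≤ q → 0 ≤ Λ → Λ ≤ √(2 ^ q) → 0 ≤ τ →
  (∀ P, 0 ≤ F P ∧ F P ≤ 1) →
  (∀ P u ρ, L12 (rst ρ fun p => F (Function.update P u p)) ≤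
    Λ * mn (rst ρ fun p => F (Function.update P u p)) + τ) →
  (1 - Fintype.card U * (Λ / √(2 ^ q))) * ∑ P, (∏ u, mv false q (P u)) * F P -
    (Fintype.card U * (τ + 1 / 2 ^ 2 ^ (q - 2)) +
      Real.exp (-(Fintype.card U * eps2 q ^ 2 / 64))) ≤
    ∑ P, (if Says q b P then ∏ u, mv b q (P u) else 0) * F P

/-! ## Part D: the quantum algorithm -/

/-- FOX: the two-query circuit. -/
def T_FOX : Prop := ∀ (O : List Bool → Bool) (s u : List Bool),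
  (run s u).prob O = phi (qs s) (cpx O s u) ^ 2

/-- YEX: the quantum algorithm works if the copies say the answer. -/
def T_YEX : Prop := ∀ (O : List Bool → Bool) (s : List Bool) (b : Bool),
  Says (qs s) b (fun u : Fin (2 * s.length) → Bool => cpx O s (List.ofFn u)) →
  (b = true → 2 / 3 ≤ yes O s) ∧ (b = false → yes O s ≤ 1 / 3)

/-! ## Part E: the fixed point -/

open Classical in
/-- FIX: the answers can be written into the oracle. -/
def T_FIX : Prop := ∀ (M : ℕ) (T : Fin M → Type) [∀ j, Fintype (T j)] [∀ j, DecidableEq (T j)]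
  (m : Bool → ∀ j, T j → ℝ) (G : Bool → ∀ j, T j → Prop) (f : (∀ j, T j) → Fin M → Bool)
  (ε τ : Fin M → ℝ), (∀ b j p, 0 ≤ m b j p) → (∀ b j, ∑ p, m b j p = 1) → (∀ j, 0 ≤ ε j) →
  (∀ j, 0 ≤ τ j) →
  (∀ (j : Fin M) (κ : Fin M → Bool) (P : ∀ j, T j),
    (1 - ε j) * ∑ p, m false j p * (if ∀ i ≤ j, f (Function.update P j p) i = κ i then 1 else 0) -
      τ j ≤
    ∑ p, (if G (κ j) j p then m (κ j) j p else 0) *
      (if ∀ i ≤ j, f (Function.update P j p) i = κ i then 1 else 0)) →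
  ∑ j, (ε j + 2 ^ (j.1 + 1) * τ j) < 1 → ∃ P, ∀ j, G (f P j) j (P j)

/-! ## Part F: the oracle of finitely many instances -/

/-- POS: the positions of the copies. -/
def T_POS : Prop := ∀ (V : ℕ → ATM) (M : ℕ) (e : Fin M → ℕ × List Bool), Function.Injective e →
  (∀ P j u, cpx (OP V e P) (sl V e j) (List.ofFn u) = P j u) ∧
  ∀ P j u w, (∃ b, ∀ p, OP V e (Function.update P j (Function.update (P j) u p)) w = b) ∨
    ∃ v, ∀ p, OP V e (Function.update P j (Function.update (P j) u p)) w = p v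

/-- SLT: the slots. -/
def T_SLT : Prop := ∀ (V : ℕ → ATM) (M : ℕ) (e : Fin M → ℕ × List Bool), Function.Injective e →
  Function.Injective (sl V e) ∧
  (∀ j, 20 ≤ sc V e j ∧ 16 * sc V e j ^ 2 ≤ (sl V e j).length ∧
    (sl V e j).length ≤ 16 * (sc V e j + 1) ^ 2) ∧
  (∀ i j, (sl V e i).length ≤ (sl V e j).length → sc V e i ≤ sc V e j) ∧
  ((Monotone fun j => (sl V e j).length) → ∀ j, j.1 + 1 ≤ 2 ^ sc V e j) ∧
  ∑ j, (1 / 4 : ℝ) ^ (sl V e j).length ≤ 2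

/-- DTC: a decision tree is a circuit of depth two. -/
def T_DTC : Prop := ∀ (X : Type) (S t m : ℕ) (T : Pool.Agent.H6.NB.DT)
  (O : (X → Bool) → List Bool → Bool), 2 ≤ S → t ≤ S → 2 ^ t ≤ S → T.depth ≤ t → T.Short m →
  (∀ w, Cl X S 0 fun y => O y w) → Cl X S 2 fun y => T.eval (O y)

open Classical in
/-- ALC: alternating quantifiers are gates. -/
def T_ALC : Prop := ∀ (X : Type) (S t d k : ℕ) (g : List (List Bool) → (X → Bool) → Bool),
  2 ≤ S → 2 ^ (t + 1) ≤ S →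
  (∀ ws, ws.length = k → (∀ w ∈ ws, w.length ≤ t) → Cl X S d (g ws)) →
  Cl X S (d + k + 1) fun y => decide (Alt (fun w => w.length ≤ t) true k fun ws => g ws y = true)

/-- CLX: the answers as functions of one copy. -/
def T_CLX : Prop := ∀ (V : ℕ → ATM) (M : ℕ) (e : Fin M → ℕ × List Bool), Function.Injective e →
  (Monotone fun j => (sl V e j).length) →
  ∀ (j : Fin M) (κ : Fin M → Bool) (P : ∀ j, Bk V e j) (u : Fin (2 * (sl V e j).length) → Bool),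
    Cl (VV (qs (sl V e j))) (2 ^ 2 ^ sc V e j) (sc V e j + 2) fun p =>
      decide (∀ i ≤ j, an V e (Function.update P j (Function.update (P j) u p)) i = κ i)

/-- The bound for the second level, relative to the mean, for instances of scale `r`. -/
noncomputable def Lam (r : ℕ) : ℝ := (128 * 4 ^ r) ^ (2 * (r + 2)) * (4 ^ r) ^ 2

/-- The absolute error of the second level for instances of scale `r`, for `q` qubits. -/
noncomputable def Tau (r q : ℕ) : ℝ :=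
  (128 * 4 ^ r) ^ (2 * (r + 2)) * ((2 * 2 ^ q) ^ 2 * (2 ^ 2 ^ r + 1) ^ (r + 2) / 2 ^ 4 ^ r)

/-- NUM: estimates for the error terms. -/
def T_NUM : Prop := ∀ r l : ℕ, 20 ≤ r → 16 * r ^ 2 ≤ l → l ≤ 16 * (r + 1) ^ 2 →
  Lam r ≤ √(2 ^ (10 * l + 100)) ∧
  (2 : ℝ) ^ (2 * l) * (Lam r / √(2 ^ (10 * l + 100))) ≤ (1 / 4) ^ l / 8 ∧
  (2 : ℝ) ^ 2 ^ r * ((2 : ℝ) ^ (2 * l) * (Tau r (10 * l + 100) + 1 / 2 ^ 2 ^ (10 * l + 100 - 2)) +
    Real.exp (-((2 : ℝ) ^ (2 * l) * eps2 (10 * l + 100) ^ 2 / 64))) ≤ (1 / 4) ^ l / 8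

/-- EXF: finitely many instances. -/
def T_EXF : Prop := ∀ (V : ℕ → ATM) (M : ℕ) (e : Fin M → ℕ × List Bool), Function.Injective e →
  (Monotone fun j => (sl V e j).length) → ∃ O, ∀ j, Okx (V (e j).1) (e j).1 (e j).2 O

/-- EXE: finitely many instances in any order. -/
def T_EXE : Prop := ∀ (V : ℕ → ATM) (E : Finset (ℕ × List Bool)), ∃ O, ∀ a ∈ E, Okx (V a.1) a.1 a.2 O

/-! ## Part G: the limit -/

/-- CMP: compactness. -/
def T_CMP : Prop := ∀ (ι : Type) (C : ι → (List Bool → Bool) → Prop),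
  (∀ i, ∃ l, ∀ O O' : List Bool → Bool, (∀ w, w.length ≤ l → O w = O' w) → (C i O ↔ C i O')) →
  (∀ E : Finset ι, ∃ O, ∀ i ∈ E, C i O) → ∃ O, ∀ i, C i O

/-- DCX: the condition of an instance depends on finitely many strings. -/
def T_DCX : Prop := ∀ (M : ATM) (i : ℕ) (x : List Bool), ∃ l, ∀ O O' : List Bool → Bool,
  (∀ w, w.length ≤ l → O w = O' w) → (Okx M i x O ↔ Okx M i x O')

/-- FIN: the theorem. -/
def T_FIN : Prop := ∀ V : ℕ → ATM, ∃ O : List Bool → Bool, ∀ i x,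
  (x ∈ (V i).lang O → 2 / 3 ≤ yes O (slot (V i) i x)) ∧
  (x ∉ (V i).lang O → yes O (slot (V i) i x) ≤ 1 / 3)

end Pool.Agent.H70.EH
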