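import Pool.Agent.H70.OQ.Stmt

/-!
# An oracle relative to which alternating exponential time is contained in BQP: definitions

The quantum query algorithms `QAlg`, the decision trees `DT` over an oracle, the code `code` and the
Hadamard transforms `hadI`, `hadX` are those of `Pool.Agent.H6.NB.Stmt`, the alternating quantifiers
`Alt` are those of `Pool.Agent.H70.OQ.Stmt`.
-/

set_option autoImplicit false

namespace Pool.Agent.H70.EH

open Pool.Agent.H6.NB Pool.Agent.H70.OQ

/-- An alternating oracle machine with time bound `time` and `alt n` alternating quantifiers on inputs of
length `n` (the first quantifier is `∃`), as far as its dependence on the oracle is concerned: for an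
input `x` and strings `w₁, …, w_k` (`k = alt |x|`) of length at most `time |x|` it makes at most
`time |x|` adaptive queries of length at most `time |x|`, described by the decision tree
`tree x [w₁, …, w_k]`. (No uniformity is required, and `time`, `alt` are arbitrary functions.) -/
structure ATM where
  time : ℕ → ℕ
  alt : ℕ → ℕ
  tree : List Bool → List (List Bool) → DT
  depth_le : ∀ x ws, ws.length = alt x.length → (∀ w ∈ ws, w.length ≤ time x.length) →
    (tree x ws).depth ≤ time x.length
  short : ∀ x ws, ws.length = alt x.length → (∀ w ∈ ws, w.length ≤ time x.length) →
    (tree x ws).Short (time x.length)

/-- The language of an alternating machine relative to the oracle `O`: `x` is a member iff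
`∃ w₁ ∀ w₂ ∃ w₃ …` (`alt |x|` quantifiers over strings of length at most `time |x|`) the computation
accepts. -/
def ATM.lang (M : ATM) (O : List Bool → Bool) : Set (List Bool) :=
  {x | Alt (fun w => w.length ≤ M.time x.length) true (M.alt x.length) fun ws =>
    (M.tree x ws).eval O = true}

/-- The size parameter of the input `x` of the machine number `i`:
`|x| + i + (number of alternations) + log₂ (time) + 20`. -/
def scale (M : ATM) (i : ℕ) (x : List Bool) : ℕ :=
  x.length + i + M.alt x.length + Nat.log 2 (M.time x.length) + 20

/-- The instance string for the input `x` of the machine number `i`. -/
def slot (M : ATM) (i : ℕ) (x : List Bool) : List Bool :=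
  code x (List.replicate i true) (16 * scale M i x ^ 2)

/-- The position of the value at `v` of the function number `b` of the copy `u` of the instance `s`. -/
def pos (s u v : List Bool) (b : Bool) : List Bool := code s (u ++ v) b.toNat

/-- The two-query circuit for the copy `u` of the instance `s`: start with `q = qs s` qubits in the state
zero, Hadamard transform, query the first function, Hadamard transform, query the second function,
Hadamard transform, accept iff all `q` qubits are zero. (One more qubit says which function is
queried.) -/
noncomputable def run (s u : List Bool) : QAlg where
  basis := (Fin (qs s) → Bool) × Bool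
  query := fun z => some (pos s u (List.ofFn z.1) z.2)
  T := 2
  U := fun t => if t = 1 then hadX (qs s) else hadI (qs s)
  unitary := fun t => by
    split_ifs
    · exact hadX_unitary _
    · exact hadI_unitary _
  init := Pi.single (fun _ => false, false) 1
  norm_init := by
    rw [Finset.sum_eq_single ((fun _ => false, false) : (Fin (qs s) → Bool) × Bool)]
    · simp
    · intro b _ hb
      rw [Pi.single_eq_of_ne hb]; simp
    · simp
  acc := Finset.univ.filter fun z => z.1 = fun _ => false

/-- The number of repetitions. -/
def reps (s : List Bool) : ℕ := 600 * (qs s + 3) ^ 2

/-- The acceptance probability of the following quantum algorithm on the instance `s`: `reps s` times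
choose a uniformly random string `u` of length `2 |s|` and run the two-query circuit `run s u`; accept iff
some run accepted. It makes `2 * reps s` queries of length at most `26 |s| + 203`. -/
noncomputable def yes (O : List Bool → Bool) (s : List Bool) : ℝ :=
  1 - (1 - (∑ u : Fin (2 * s.length) → Bool, (run s (List.ofFn u)).prob O) / 2 ^ (2 * s.length)) ^ reps s

end Pool.Agent.H70.EH
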