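import Pool.Agent.H6.NB.Targets
import Pool.Agent.H70.EH.Stmt

/-!
# An oracle relative to which alternating exponential time is contained in BQP: definitions for the proof
-/

set_option autoImplicit false

namespace Pool.Agent.H70.EH

open Finset Pool.Agent.H6.NB Pool.Agent.H70.OQ

/-- The mean of a function. -/
noncomputable def mn {V : Type} [Fintype V] [DecidableEq V] (F : (V → Bool) → ℝ) : ℝ := (∑ y, F y) / 2 ^ Fintype.card V

/-- The number of steps of the walk. -/
def Tm (q : ℕ) : ℕ := 2 ^ 2 ^ q

/-- The step size. -/
noncomputable def dm (q : ℕ) : ℝ := √(eps2 q / Tm q)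

/-- The forrelated (`true`) and the uniform (`false`) distribution. -/
noncomputable def mv (b : Bool) (q : ℕ) (p : VV q → Bool) : ℝ :=
  if b then ((AA q (dm q))^[Tm q] fun W => ∏ v, (1 + sg (p v) * W v) / 2) (fun _ => 0)
  else 1 / 2 ^ (2 * 2 ^ q)

/-- The average of the squared forrelations of the copies. -/
noncomputable def avg {U : Type} [Fintype U] (q : ℕ) (P : U → VV q → Bool) : ℝ :=
  (∑ u, phi q (P u) ^ 2) / Fintype.card U

/-- The copies `P` say the bit `b`. -/
def Says {U : Type} [Fintype U] (q : ℕ) (b : Bool) (P : U → VV q → Bool) : Prop :=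
  (b = false → avg q P ≤ eps2 q ^ 2 / 32) ∧ (b = true → eps2 q ^ 2 / 8 ≤ avg q P)

/-- The copy `u` of the instance `s`. -/
def cpx (O : List Bool → Bool) (s u : List Bool) : VV (qs s) → Bool :=
  fun v => O (pos s u (List.ofFn v.2) v.1)

open Classical in
/-- The copies of the instance `x` of the machine number `i` say the answer of the instance. -/
def Okx (M : ATM) (i : ℕ) (x : List Bool) (O : List Bool → Bool) : Prop :=
  Says (qs (slot M i x)) (decide (x ∈ M.lang O)) fun u : Fin (2 * (slot M i x).length) → Bool =>
    cpx O (slot M i x) (List.ofFn u)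

section

variable (V : ℕ → ATM) {M : ℕ} (e : Fin M → ℕ × List Bool)

/-- The slot of the instance number `j`. -/
def sl (j : Fin M) : List Bool := slot (V (e j).1) (e j).1 (e j).2

/-- The scale of the instance number `j`. -/
def sc (j : Fin M) : ℕ := scale (V (e j).1) (e j).1 (e j).2

/-- The copies of the instance number `j`. -/
abbrev Bk (j : Fin M) : Type := (Fin (2 * (sl V e j).length) → Bool) → VV (qs (sl V e j)) → Bool

open Classical in
/-- The oracle built from the copies. -/
noncomputable def OP (P : ∀ j, Bk V e j) : List Bool → Bool := fun w =>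
  if h : ∃ a : Σ j : Fin M, (Fin (2 * (sl V e j).length) → Bool) × VV (qs (sl V e j)),
    w = pos (sl V e a.1) (List.ofFn a.2.1) (List.ofFn a.2.2.2) a.2.2.1 then
    P h.choose.1 h.choose.2.1 h.choose.2.2
  else false

open Classical in
/-- The answer of the instance number `j`. -/
noncomputable def an (P : ∀ j, Bk V e j) (j : Fin M) : Bool :=
  decide ((e j).2 ∈ (V (e j).1).lang (OP V e P))

end

end Pool.Agent.H70.EH
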