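import Pool.Agent.H70.EH.Targets

/-!
# EXE: finitely many instances in any order
-/

set_option autoImplicit false

namespace Pool.Agent.H70.EH

open Finset

theorem exe (h1 : T_EXF) : T_EXE := by
  classical
  intro V E
  let e0 : Fin E.card → ℕ × List Bool := fun j => (E.equivFin.symm j).1
  have he0 : Function.Injective e0 := fun a b h =>
    E.equivFin.symm.injective (Subtype.ext h)
  let len : Fin E.card → ℕ := fun j => (slot (V (e0 j).1) (e0 j).1 (e0 j).2).length
  let e : Fin E.card → ℕ × List Bool := fun j => e0 (Tuple.sort len j)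
  have he : Function.Injective e := he0.comp (Tuple.sort len).injective
  have hmono : Monotone fun j => (sl V e j).length := Tuple.monotone_sort len
  obtain ⟨O, hO⟩ := h1 V E.card e he hmono
  refine ⟨O, fun a ha => ?_⟩
  have h2 := hO ((Tuple.sort len).symm (E.equivFin ⟨a, ha⟩))
  have h3 : e ((Tuple.sort len).symm (E.equivFin ⟨a, ha⟩)) = a := by
    simp [e, e0]
  rw [h3] at h2
  exact h2

end Pool.Agent.H70.EH
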