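import Pool.Agent.H70.EH.Targets

/-!
# EXF: finitely many instances
-/

set_option autoImplicit false

namespace Pool.Agent.H70.EH

open Finset Pool.Agent.H6.NB Pool.Agent.H70.OQ

theorem card_VV (q : ℕ) : (Fintype.card (VV q) : ℝ) = 2 * 2 ^ q := by
  rw [Fintype.card_prod, Fintype.card_bool, Fintype.card_fun, Fintype.card_bool, Fintype.card_fin]
  push_cast
  ring

theorem lam_tau (r q : ℕ) (m : ℝ) :
    (128 * ((4 ^ r : ℕ) : ℝ)) ^ (2 * (r + 1 + 1)) * (((4 ^ r : ℕ) : ℝ) ^ 2 * m +
      (2 * 2 ^ q) ^ 2 * (((2 ^ 2 ^ r : ℕ) : ℝ) + 1) ^ (r + 1 + 1) / 2 ^ 4 ^ r) =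
    Lam r * m + Tau r q := by
  unfold Lam Tau
  rw [Nat.cast_pow, Nat.cast_pow, Nat.cast_ofNat, Nat.cast_ofNat, mul_add, mul_assoc]

theorem exf (h1 : T_FIX) (h2 : T_RIN) (h3 : T_MUV) (h4 : T_RL2) (h5 : T_CLX) (h6 : T_POS)
    (h7 : T_SLT) (h8 : T_NUM) (h9 : Pool.Agent.H6.NB.T_CLR) : T_EXF := by
  classical
  intro V M e he hmono
  obtain ⟨hinj, hsc, hscm, hcnt, hgeo⟩ := h7 V M e he
  have hq : ∀ j, qs (sl V e j) = 10 * (sl V e j).length + 100 := fun j => rfl
  have hq10 : ∀ j, 100 ≤ qs (sl V e j) := fun j => by rw [hq]; omega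
  -- the parameters
  let l : Fin M → ℕ := fun j => (sl V e j).length
  let ep : Fin M → ℝ := fun j => (2 : ℝ) ^ (2 * l j) * (Lam (sc V e j) / √(2 ^ (10 * l j + 100)))
  let ta : Fin M → ℝ := fun j => (2 : ℝ) ^ (2 * l j) * (Tau (sc V e j) (10 * l j + 100) +
    1 / 2 ^ 2 ^ (10 * l j + 100 - 2)) +
    Real.exp (-((2 : ℝ) ^ (2 * l j) * eps2 (10 * l j + 100) ^ 2 / 64))
  have hLam0 : ∀ r, 0 ≤ Lam r := fun r => by unfold Lam; positivity
  have hTau0 : ∀ r q, 0 ≤ Tau r q := fun r q => by unfold Tau; positivity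
  have hcard : ∀ j : Fin M, (Fintype.card (Fin (2 * (sl V e j).length) → Bool) : ℝ) =
      2 ^ (2 * l j) := by
    intro j
    simp [l]
  have hnum := fun j => h8 (sc V e j) (l j) (hsc j).1 (hsc j).2.1 (hsc j).2.2
  obtain ⟨P, hP⟩ := h1 M (fun j => Bk V e j)
    (fun b j P => ∏ u, mv b (qs (sl V e j)) (P u))
    (fun b j P => Says (qs (sl V e j)) b P)
    (fun P => an V e P) ep ta
    (fun b j P => Finset.prod_nonneg fun u _ => (h3 b _).1 _)
    (fun b j => by
      have h0 : ∑ P : Bk V e j, ∏ u, mv b (qs (sl V e j)) (P u) =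
          ∏ _u : Fin (2 * (sl V e j).length) → Bool, ∑ p, mv b (qs (sl V e j)) p := by
        rw [Finset.prod_univ_sum, Fintype.piFinset_univ]
      rw [h0, Finset.prod_congr rfl fun u _ => (h3 b _).2.1, Finset.prod_const_one])
    (fun j => mul_nonneg (by positivity) (div_nonneg (hLam0 _) (Real.sqrt_nonneg _)))
    (fun j => add_nonneg (mul_nonneg (by positivity) (add_nonneg (hTau0 _ _) (by positivity)))
      (Real.exp_nonneg _))
    (by
      intro j κ P
      have hL12 : ∀ (P' : Bk V e j) u ρ, L12 (rst ρ fun p => (fun P'' : Bk V e j =>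
          if ∀ i ≤ j, an V e (Function.update P j P'') i = κ i then (1 : ℝ) else 0)
            (Function.update P' u p)) ≤ Lam (sc V e j) * mn (rst ρ fun p => (fun P'' : Bk V e j =>
          if ∀ i ≤ j, an V e (Function.update P j P'') i = κ i then (1 : ℝ) else 0)
            (Function.update P' u p)) + Tau (sc V e j) (qs (sl V e j)) := by
        intro P' u ρ
        have hcl := h5 V M e he hmono j κ (Function.update P j P') u
        have hcl' := h9 _ _ _ _ ρ hcl
        have hrl := h4 (VV (qs (sl V e j))) (2 ^ 2 ^ sc V e j) (sc V e j + 1) (4 ^ sc V e j) _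
          (Nat.one_le_pow _ _ (by norm_num)) hcl'
        have hfun : (rst ρ fun p => (fun P'' : Bk V e j =>
          if ∀ i ≤ j, an V e (Function.update P j P'') i = κ i then (1 : ℝ) else 0)
            (Function.update P' u p)) = fun y => bi (rst ρ (fun p => decide (∀ i ≤ j,
            an V e (Function.update (Function.update P j P') j
              (Function.update (Function.update P j P' j) u p)) i = κ i)) y) := by
          funext y
          simp only [rst, bi, Function.update_idem, Function.update_self]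
          by_cases h : ∀ i ≤ j, an V e (Function.update P j (Function.update P' u
            fun v => (ρ v).getD (y v))) i = κ i
          · rw [if_pos h, if_pos (by simpa using h)]
          · rw [if_neg h, if_neg (by simpa using h)]
        rw [hfun]
        rw [card_VV, lam_tau] at hrl
        exact hrl
      have hrin := h2 (Fin (2 * (sl V e j).length) → Bool) (qs (sl V e j))
        (fun P'' => if ∀ i ≤ j, an V e (Function.update P j P'') i = κ i then (1 : ℝ) else 0)
        (Lam (sc V e j)) (Tau (sc V e j) (qs (sl V e j))) (κ j) (hq10 j) (hLam0 _)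
        (hnum j).1 (hTau0 _ _)
        (fun P'' => by
          split_ifs
          · exact ⟨zero_le_one, le_rfl⟩
          · exact ⟨le_rfl, zero_le_one⟩)
        (fun P' u ρ => hL12 P' u ρ)
      rw [hcard] at hrin
      exact hrin)
    (by
      calc ∑ j, (ep j + 2 ^ (j.1 + 1) * ta j) ≤ ∑ j, (1 / 4 : ℝ) ^ (sl V e j).length / 4 := by
            refine Finset.sum_le_sum fun j _ => ?_
            have ha := (hnum j).2.1
            have hb := (hnum j).2.2
            have hta : 0 ≤ ta j := add_nonneg (mul_nonneg (by positivity)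
              (add_nonneg (hTau0 _ _) (by positivity))) (Real.exp_nonneg _)
            have hpow : (2 : ℝ) ^ (j.1 + 1) ≤ 2 ^ 2 ^ sc V e j :=
              pow_le_pow_right₀ (by norm_num) (hcnt hmono j)
            have hc : (2 : ℝ) ^ (j.1 + 1) * ta j ≤ 2 ^ 2 ^ sc V e j * ta j :=
              mul_le_mul_of_nonneg_right hpow hta
            have hd : (2 : ℝ) ^ 2 ^ sc V e j * ta j ≤ (1 / 4) ^ l j / 8 := hb
            have he' : ep j ≤ (1 / 4) ^ l j / 8 := ha
            change ep j + 2 ^ (j.1 + 1) * ta j ≤ (1 / 4 : ℝ) ^ l j / 4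
            linarith
        _ = (∑ j, (1 / 4 : ℝ) ^ (sl V e j).length) / 4 := by rw [Finset.sum_div]
        _ ≤ 2 / 4 := by linarith
        _ < 1 := by norm_num)
  refine ⟨OP V e P, fun j => ?_⟩
  have hcp := (h6 V M e he).1 P j
  have hPj := hP j
  have hfun : (fun u : Fin (2 * (slot (V (e j).1) (e j).1 (e j).2).length) → Bool =>
      cpx (OP V e P) (slot (V (e j).1) (e j).1 (e j).2) (List.ofFn u)) = P j := by
    funext u
    exact hcp u
  unfold Okx
  rw [hfun]
  exact hPj

end Pool.Agent.H70.EH
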