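import Pool.Agent.H70.EH.Targets

/-!
# FIX: the answers can be written into the oracle
-/

set_option autoImplicit false

namespace Pool.Agent.H70.EH

open Finset

/-- Sum over a function and one of its coordinates. -/
theorem upd_sum {M : ℕ} {T : Fin M → Type} [∀ j, Fintype (T j)] [∀ j, DecidableEq (T j)] (j : Fin M)
    (F : (∀ j, T j) → ℝ) :
    ∑ P, ∑ p, F (Function.update P j p) = Fintype.card (T j) * ∑ P, F P := by
  have h1 : ∑ P, ∑ p, F (Function.update P j p) =
      ∑ a : (∀ j, T j) × T j, F (Function.update a.1 j a.2) := by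
    rw [Fintype.sum_prod_type]
  have h2 : ∑ a : (∀ j, T j) × T j, F (Function.update a.1 j a.2) =
      ∑ a : (∀ j, T j) × T j, F a.1 := by
    refine Fintype.sum_equiv ⟨fun a => (Function.update a.1 j a.2, a.1 j),
      fun a => (Function.update a.1 j a.2, a.1 j), ?_, ?_⟩ _ _ ?_
    · intro a; ext <;> simp
    · intro a; ext <;> simp
    · intro a; rfl
  rw [h1, h2, Fintype.sum_prod_type]
  simp [Finset.mul_sum]

/-- Products of sums. -/
theorem prod_sum_pi {M : ℕ} {T : Fin M → Type} [∀ j, Fintype (T j)] [∀ j, DecidableEq (T j)]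
    (g : ∀ i, T i → ℝ) : ∑ P : (∀ j, T j), ∏ i, g i (P i) = ∏ i, ∑ p, g i p := by
  rw [Finset.prod_univ_sum, Fintype.piFinset_univ]

open Classical in
/-- One step of the construction. -/
theorem fix_step (M : ℕ) (T : Fin M → Type) [∀ j, Fintype (T j)] [∀ j, DecidableEq (T j)]
    (m : Bool → ∀ j, T j → ℝ) (G : Bool → ∀ j, T j → Prop) (f : (∀ j, T j) → Fin M → Bool)
    (hm0 : ∀ b j p, 0 ≤ m b j p) (hm1 : ∀ b j, ∑ p, m b j p = 1) (j : Fin M) (ε τ : ℝ) (hτ : 0 ≤ τ)
    (hyp : ∀ (κ : Fin M → Bool) (P : ∀ j, T j),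
      (1 - ε) * ∑ p, m false j p * (if ∀ i ≤ j, f (Function.update P j p) i = κ i then 1 else 0) -
        τ ≤ ∑ p, (if G (κ j) j p then m (κ j) j p else 0) *
        (if ∀ i ≤ j, f (Function.update P j p) i = κ i then 1 else 0)) :
    (1 - ε) * (∑ P : (∀ j, T j), ∏ i, (if i.1 < j.1 then (if G (f P i) i (P i) then m (f P i) i (P i) else 0)
      else m false i (P i))) - 2 ^ (j.1 + 1) * τ ≤
    ∑ P : (∀ j, T j), ∏ i, (if i.1 < j.1 + 1 then (if G (f P i) i (P i) then m (f P i) i (P i) else 0)
      else m false i (P i)) := by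
  let ext : (Fin (j.1 + 1) → Bool) → Fin M → Bool := fun κ i =>
    if h : i.1 < j.1 + 1 then κ ⟨i.1, h⟩ else false
  let ind : (Fin M → Bool) → (∀ j, T j) → ℝ := fun κ P => if ∀ i ≤ j, f P i = κ i then 1 else 0
  have hone : ∀ P, ∑ κ : Fin (j.1 + 1) → Bool, ind (ext κ) P = 1 := by
    intro P
    rw [Finset.sum_eq_single (fun a : Fin (j.1 + 1) => f P ⟨a.1, lt_of_lt_of_le a.2 j.2⟩)]
    · simp only [ind]
      rw [if_pos]
      intro i hi
      simp only [ext]
      rw [dif_pos (Nat.lt_succ_of_le hi)]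
    · intro κ _ hκ
      simp only [ind]
      rw [if_neg]
      intro hall
      apply hκ
      ext a
      have h1 := hall ⟨a.1, lt_of_lt_of_le a.2 j.2⟩ (Nat.le_of_lt_succ a.2)
      simp only [ext] at h1
      rw [dif_pos a.2] at h1
      exact h1.symm
    · intro h; exact absurd (mem_univ _) h
  let v : (Fin M → Bool) → ∀ i, T i → ℝ := fun κ i p =>
    if i.1 < j.1 then (if G (κ i) i p then m (κ i) i p else 0) else m false i p
  let R : (Fin M → Bool) → (∀ j, T j) → ℝ := fun κ P => ∏ i ∈ univ.erase j, v κ i (P i)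
  have hv0 : ∀ κ i p, 0 ≤ v κ i p := by
    intro κ i p
    simp only [v]
    split_ifs
    · exact hm0 _ _ _
    · exact le_refl _
    · exact hm0 _ _ _
  have hv1 : ∀ κ i, ∑ p, v κ i p ≤ 1 := by
    intro κ i
    by_cases hi : i.1 < j.1
    · calc ∑ p, v κ i p ≤ ∑ p, m (κ i) i p := by
            refine Finset.sum_le_sum fun p _ => ?_
            simp only [v]
            rw [if_pos hi]
            split_ifs
            · exact le_refl _
            · exact hm0 _ _ _
        _ = 1 := hm1 _ _
    · calc ∑ p, v κ i p ≤ ∑ p, m false i p := by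
            refine Finset.sum_le_sum fun p _ => ?_
            simp only [v]
            rw [if_neg hi]
        _ = 1 := hm1 _ _
  have hR0 : ∀ κ P, 0 ≤ R κ P := fun κ P => Finset.prod_nonneg fun i _ => hv0 _ _ _
  have hRu : ∀ κ P p, R κ (Function.update P j p) = R κ P := by
    intro κ P p
    refine Finset.prod_congr rfl fun i hi => ?_
    rw [Function.update_of_ne (Finset.ne_of_mem_erase hi)]
  have hRs : ∀ κ, ∑ P, R κ P ≤ Fintype.card (T j) := by
    intro κ
    have h1 : ∀ P : (∀ j, T j), R κ P = ∏ i, (if i = j then 1 else v κ i (P i)) := by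
      intro P
      rw [← Finset.mul_prod_erase univ _ (mem_univ j), if_pos rfl, one_mul]
      refine Finset.prod_congr rfl fun i hi => ?_
      rw [if_neg (Finset.ne_of_mem_erase hi)]
    rw [Finset.sum_congr rfl fun P _ => h1 P]
    rw [prod_sum_pi (fun i p => if i = j then 1 else v κ i p)]
    rw [← Finset.mul_prod_erase univ _ (mem_univ j)]
    have h2 : ∑ p : T j, (if j = j then (1 : ℝ) else v κ j p) = Fintype.card (T j) := by simp
    rw [h2]
    have h3 : ∏ i ∈ univ.erase j, ∑ p, (if i = j then 1 else v κ i p) ≤ 1 := by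
      refine Finset.prod_le_one (fun i _ => Finset.sum_nonneg fun p _ => ?_) (fun i hi => ?_)
      · split_ifs
        · exact zero_le_one
        · exact hv0 _ _ _
      · calc ∑ p, (if i = j then 1 else v κ i p) = ∑ p, v κ i p :=
              Finset.sum_congr rfl fun p _ => by rw [if_neg (Finset.ne_of_mem_erase hi)]
          _ ≤ 1 := hv1 _ _
    calc (Fintype.card (T j) : ℝ) * ∏ i ∈ univ.erase j, ∑ p, (if i = j then 1 else v κ i p)
        ≤ Fintype.card (T j) * 1 := by
          exact mul_le_mul_of_nonneg_left h3 (Nat.cast_nonneg _)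
      _ = Fintype.card (T j) := mul_one _
  -- the two products
  have hA : ∀ κ P, ind κ P * ∏ i, (if i.1 < j.1 then (if G (f P i) i (P i) then
      m (f P i) i (P i) else 0) else m false i (P i)) = R κ P * (m false j (P j) * ind κ P) := by
    intro κ P
    by_cases h : ∀ i ≤ j, f P i = κ i
    · have hi : ind κ P = 1 := if_pos h
      rw [hi, one_mul, mul_one, ← Finset.mul_prod_erase univ _ (mem_univ j), if_neg (lt_irrefl _),
        mul_comm]
      congr 1
      refine Finset.prod_congr rfl fun i _ => ?_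
      simp only [v]
      by_cases hij : i.1 < j.1
      · rw [if_pos hij, if_pos hij, h i (le_of_lt hij)]
      · rw [if_neg hij, if_neg hij]
    · have hi : ind κ P = 0 := if_neg h
      rw [hi]; ring
  have hB : ∀ κ P, ind κ P * ∏ i, (if i.1 < j.1 + 1 then (if G (f P i) i (P i) then
      m (f P i) i (P i) else 0) else m false i (P i)) =
      R κ P * ((if G (κ j) j (P j) then m (κ j) j (P j) else 0) * ind κ P) := by
    intro κ P
    by_cases h : ∀ i ≤ j, f P i = κ i
    · have hi : ind κ P = 1 := if_pos h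
      rw [hi, one_mul, mul_one, ← Finset.mul_prod_erase univ _ (mem_univ j),
        if_pos (Nat.lt_succ_self _), h j le_rfl, mul_comm]
      congr 1
      refine Finset.prod_congr rfl fun i hi' => ?_
      have hne : i.1 ≠ j.1 := fun e => Finset.ne_of_mem_erase hi' (Fin.ext e)
      simp only [v]
      by_cases hij : i.1 < j.1
      · rw [if_pos hij, if_pos (Nat.lt_succ_of_lt hij), h i (le_of_lt hij)]
      · rw [if_neg hij, if_neg (by omega)]
    · have hi : ind κ P = 0 := if_neg h
      rw [hi]; ring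
  have hcard : 0 < (Fintype.card (T j) : ℝ) := by
    have : Nonempty (T j) := by
      by_contra hne
      rw [not_nonempty_iff] at hne
      have := hm1 false j
      rw [Finset.univ_eq_empty, Finset.sum_empty] at this
      exact zero_ne_one this
    exact_mod_cast Fintype.card_pos
  set Z0 := ∑ P : (∀ j, T j), ∏ i, (if i.1 < j.1 then (if G (f P i) i (P i) then
    m (f P i) i (P i) else 0) else m false i (P i)) with hZ0
  set Z1 := ∑ P : (∀ j, T j), ∏ i, (if i.1 < j.1 + 1 then (if G (f P i) i (P i) then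
    m (f P i) i (P i) else 0) else m false i (P i)) with hZ1
  have e0 : Fintype.card (T j) * Z0 = ∑ κ : Fin (j.1 + 1) → Bool, ∑ P, R (ext κ) P *
      ∑ p, m false j p * ind (ext κ) (Function.update P j p) := by
    have h1 : Z0 = ∑ κ : Fin (j.1 + 1) → Bool, ∑ P, R (ext κ) P * (m false j (P j) * ind (ext κ) P) := by
      rw [Finset.sum_comm, hZ0]
      refine Finset.sum_congr rfl fun P _ => ?_
      rw [← Finset.sum_congr rfl fun κ _ => hA (ext κ) P, ← Finset.sum_mul, hone, one_mul]
    rw [h1, Finset.mul_sum]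
    refine Finset.sum_congr rfl fun κ _ => ?_
    rw [← upd_sum j (fun P => R (ext κ) P * (m false j (P j) * ind (ext κ) P))]
    refine Finset.sum_congr rfl fun P _ => ?_
    rw [Finset.mul_sum]
    refine Finset.sum_congr rfl fun p _ => ?_
    rw [hRu, Function.update_self]
  have e1 : Fintype.card (T j) * Z1 = ∑ κ : Fin (j.1 + 1) → Bool, ∑ P, R (ext κ) P *
      ∑ p, (if G (ext κ j) j p then m (ext κ j) j p else 0) *
        ind (ext κ) (Function.update P j p) := by
    have h1 : Z1 = ∑ κ : Fin (j.1 + 1) → Bool, ∑ P, R (ext κ) P *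
        ((if G (ext κ j) j (P j) then m (ext κ j) j (P j) else 0) * ind (ext κ) P) := by
      rw [Finset.sum_comm, hZ1]
      refine Finset.sum_congr rfl fun P _ => ?_
      rw [← Finset.sum_congr rfl fun κ _ => hB (ext κ) P, ← Finset.sum_mul, hone, one_mul]
    rw [h1, Finset.mul_sum]
    refine Finset.sum_congr rfl fun κ _ => ?_
    rw [← upd_sum j (fun P => R (ext κ) P *
      ((if G (ext κ j) j (P j) then m (ext κ j) j (P j) else 0) * ind (ext κ) P))]
    refine Finset.sum_congr rfl fun P _ => ?_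
    rw [Finset.mul_sum]
    refine Finset.sum_congr rfl fun p _ => ?_
    rw [hRu, Function.update_self]
  have key : Fintype.card (T j) * ((1 - ε) * Z0 - 2 ^ (j.1 + 1) * τ) ≤ Fintype.card (T j) * Z1 := by
    have h2 : ∑ κ : Fin (j.1 + 1) → Bool, ∑ P, R (ext κ) P * ((1 - ε) *
        (∑ p, m false j p * ind (ext κ) (Function.update P j p)) - τ) ≤
        Fintype.card (T j) * Z1 := by
      rw [e1]
      refine Finset.sum_le_sum fun κ _ => Finset.sum_le_sum fun P _ => ?_
      exact mul_le_mul_of_nonneg_left (hyp (ext κ) P) (hR0 _ _)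
    refine le_trans ?_ h2
    have h3 : ∑ κ : Fin (j.1 + 1) → Bool, ∑ P, R (ext κ) P * ((1 - ε) *
        (∑ p, m false j p * ind (ext κ) (Function.update P j p)) - τ) =
        (1 - ε) * (Fintype.card (T j) * Z0) - τ * ∑ κ : Fin (j.1 + 1) → Bool, ∑ P, R (ext κ) P := by
      rw [e0, Finset.mul_sum, Finset.mul_sum, ← Finset.sum_sub_distrib]
      refine Finset.sum_congr rfl fun κ _ => ?_
      rw [Finset.mul_sum, Finset.mul_sum, ← Finset.sum_sub_distrib]
      refine Finset.sum_congr rfl fun P _ => ?_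
      ring
    have h4 : ∑ κ : Fin (j.1 + 1) → Bool, ∑ P, R (ext κ) P ≤ 2 ^ (j.1 + 1) * Fintype.card (T j) := by
      calc ∑ κ : Fin (j.1 + 1) → Bool, ∑ P, R (ext κ) P
          ≤ ∑ _κ : Fin (j.1 + 1) → Bool, (Fintype.card (T j) : ℝ) :=
            Finset.sum_le_sum fun κ _ => hRs _
        _ = 2 ^ (j.1 + 1) * Fintype.card (T j) := by
            simp
    have h5 := mul_le_mul_of_nonneg_left h4 hτ
    rw [h3]
    nlinarith [h5]
  exact le_of_mul_le_mul_left key hcard

theorem fix : T_FIX := by
  classical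
  intro M T _ _ m G f ε τ hm0 hm1 hε hτ hyp hsum
  let Z : ℕ → ℝ := fun k => ∑ P : (∀ j, T j), ∏ i : Fin M, (if i.1 < k then
    (if G (f P i) i (P i) then m (f P i) i (P i) else 0) else m false i (P i))
  let c : ℕ → ℝ := fun k => if h : k < M then ε ⟨k, h⟩ + 2 ^ (k + 1) * τ ⟨k, h⟩ else 0
  have hc0 : ∀ k, 0 ≤ c k := by
    intro k
    simp only [c]
    split_ifs with h
    · have h1 := hε ⟨k, h⟩
      have h2 := hτ ⟨k, h⟩
      positivity
    · exact le_refl _
  have hcs : ∑ k ∈ range M, c k < 1 := by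
    rw [Finset.sum_range]
    refine lt_of_le_of_lt (le_of_eq ?_) hsum
    refine Finset.sum_congr rfl fun j _ => ?_
    simp only [c]
    rw [dif_pos j.2]
  have hmain : ∀ k ≤ M, 1 - ∑ i ∈ range k, c i ≤ Z k := by
    intro k
    induction k with
    | zero =>
      intro _
      simp only [Finset.range_zero, Finset.sum_empty, sub_zero, Z]
      refine le_of_eq ?_
      have h1 : ∀ P : (∀ j, T j), (∏ i : Fin M, (if i.1 < 0 then
          (if G (f P i) i (P i) then m (f P i) i (P i) else 0) else m false i (P i))) =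
          ∏ i, m false i (P i) := by
        intro P
        refine Finset.prod_congr rfl fun i _ => ?_
        rw [if_neg (Nat.not_lt_zero _)]
      rw [Finset.sum_congr rfl fun P _ => h1 P, prod_sum_pi (fun i p => m false i p)]
      rw [Finset.prod_congr rfl fun i _ => hm1 false i, Finset.prod_const_one]
    | succ k ih =>
      intro hk
      have hk' : k < M := hk
      have h1 := ih hk'.le
      have h2 := fix_step M T m G f hm0 hm1 ⟨k, hk'⟩ (ε ⟨k, hk'⟩) (τ ⟨k, hk'⟩) (hτ _)
        (hyp ⟨k, hk'⟩)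
      have h2' : (1 - ε ⟨k, hk'⟩) * Z k - 2 ^ (k + 1) * τ ⟨k, hk'⟩ ≤ Z (k + 1) := h2
      have hck : c k = ε ⟨k, hk'⟩ + 2 ^ (k + 1) * τ ⟨k, hk'⟩ := by
        simp only [c]; rw [dif_pos hk']
      rw [Finset.sum_range_succ, hck]
      set L := ∑ i ∈ range k, c i with hL
      have hL0 : 0 ≤ L := Finset.sum_nonneg fun i _ => hc0 i
      have hle : L + c k ≤ ∑ i ∈ range M, c i := by
        rw [hL, ← Finset.sum_range_succ]
        exact Finset.sum_le_sum_of_subset_of_nonneg (Finset.range_subset_range.2 hk)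
          fun i _ _ => hc0 i
      have hεk := hε ⟨k, hk'⟩
      have hτk : 0 ≤ 2 ^ (k + 1) * τ ⟨k, hk'⟩ := mul_nonneg (by positivity) (hτ _)
      have hε1 : ε ⟨k, hk'⟩ ≤ 1 := by
        rw [hck] at hle
        linarith
      have h3 : (1 - ε ⟨k, hk'⟩) * (1 - L) ≤ (1 - ε ⟨k, hk'⟩) * Z k :=
        mul_le_mul_of_nonneg_left h1 (by linarith)
      nlinarith [mul_nonneg hεk hL0]
  have hZM : 0 < Z M := by
    have := hmain M le_rfl
    linarith
  by_contra hno
  have hno' : ∀ P : (∀ j, T j), ∃ j, ¬ G (f P j) j (P j) := by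
    intro P
    by_contra h
    exact hno ⟨P, fun j => by
      by_contra h'
      exact h ⟨j, h'⟩⟩
  have : Z M = 0 := by
    simp only [Z]
    refine Finset.sum_eq_zero fun P _ => ?_
    obtain ⟨j, hj⟩ := hno' P
    refine Finset.prod_eq_zero (mem_univ j) ?_
    rw [if_pos j.2, if_neg hj]
  linarith

end Pool.Agent.H70.EH
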