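import Pool.Agent.H90.EH.Targets

/-!
# GQ0: generic directions with positive coefficients exist
-/

set_option autoImplicit false

namespace Pool.Agent.H70.EH.GQ0

open Finset Pool.Agent.H90.EH
open scoped Classical

theorem pf_GQ0 : T_GQ0 := by
  intro V _ _ A
  obtain ⟨i, hi⟩ := Set.countable_iff_exists_injOn.1 (A.finite_toSet.countable)
  set P : Finset V → V → Polynomial ℚ := fun B b =>
    ∑ a ∈ A, Polynomial.C (co B a b) * Polynomial.X ^ (i a) with hP
  have hP0 : ∀ B, IsB A B → ∀ b ∈ B, P B b ≠ 0 := by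
    intro B hB b hb h0
    have hbA : b ∈ A := hB.1 hb
    have h1 : (P B b).coeff (i b) = 1 := by
      simp only [hP, Polynomial.finsetSum_coeff, Polynomial.coeff_C_mul_X_pow]
      rw [sum_eq_single b]
      · rw [if_pos rfl, co_self hB.2.1 hb hb, if_pos rfl]
      · intro a ha hab
        rw [if_neg]
        intro h
        exact hab (hi (mem_coe.2 ha) (mem_coe.2 hbA) h.symm)
      · intro h
        exact absurd hbA h
    rw [h0, Polynomial.coeff_zero] at h1
    exact zero_ne_one h1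
  obtain ⟨t, ht0, htS⟩ := (Set.Ioi_infinite (0 : ℚ)).exists_notMem_finset
    ((A.powerset.filter (fun B => IsB A B)).biUnion
      (fun B => B.biUnion (fun b => (P B b).roots.toFinset)))
  refine ⟨fun a => t ^ (i a), fun a _ => pow_pos ht0 _, mem_Sp.2 ⟨_, rfl⟩, ?_⟩
  intro B hB b hb
  have h1 : co B (∑ a ∈ A, t ^ (i a) • a) b = ∑ a ∈ A, t ^ (i a) * co B a b := by
    apply co_unique hB.2.1 (c := fun b => ∑ a ∈ A, t ^ (i a) * co B a b) _ hb
    simp only [sum_smul]
    rw [sum_comm]
    refine sum_congr rfl fun a ha => ?_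
    have h3 : ∑ b ∈ B, (t ^ (i a) * co B a b) • b = t ^ (i a) • ∑ b ∈ B, co B a b • b := by
      rw [smul_sum]
      exact sum_congr rfl fun b _ => by rw [mul_smul]
    rw [h3, ← co_spec (hB.2.2 a ha)]
  have h2 : (P B b).eval t = ∑ a ∈ A, t ^ (i a) * co B a b := by
    simp only [hP, Polynomial.eval_finsetSum, Polynomial.eval_mul, Polynomial.eval_C,
      Polynomial.eval_pow, Polynomial.eval_X]
    exact sum_congr rfl fun a _ => mul_comm _ _
  intro h3
  apply htS
  rw [mem_biUnion]
  refine ⟨B, mem_filter.2 ⟨mem_powerset.2 hB.1, hB⟩, ?_⟩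
  rw [mem_biUnion]
  refine ⟨b, hb, ?_⟩
  rw [Multiset.mem_toFinset, Polynomial.mem_roots (hP0 B hB b hb), Polynomial.IsRoot, h2, ← h1]
  exact h3

end Pool.Agent.H70.EH.GQ0
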