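import Pool.Agent.H57.NB.DTL
import Pool.Agent.H70.EH.Targets

/-!
# RDT: decision trees, relative version
-/

set_option autoImplicit false

namespace Pool.Agent.H70.EH.RDT

open Finset Pool.Agent.H6.NB Pool.Agent.H57.NB.DTL

variable {V : Type} [DecidableEq V] [Fintype V]

theorem hat_le' (t : Pool.Agent.H68.AC.DT V) (S : Finset V) :
    |hat (fun y => bi (t.eval y)) S| ≤
      (∑ y ∈ univ.filter (fun y : V → Bool => S ⊆ qv y t), bi (t.eval y)) / 2 ^ Fintype.card V := by
  rw [hat, abs_div, abs_of_pos (by positivity : (0 : ℝ) < 2 ^ Fintype.card V)]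
  refine div_le_div_of_nonneg_right ?_ (by positivity)
  rw [← Finset.sum_filter_add_sum_filter_not univ (fun y : V → Bool => S ⊆ qv y t), sum_zero, add_zero]
  refine (Finset.abs_sum_le_sum_abs _ _).trans ?_
  refine Finset.sum_le_sum fun y _ => ?_
  have h1 : |∏ u ∈ S, sg (y u)| = 1 := by
    rw [Finset.abs_prod]
    refine Finset.prod_eq_one fun u _ => ?_
    simp only [sg]
    split_ifs <;> simp
  rw [abs_mul, h1, mul_one]
  simp only [bi]
  split_ifs <;> simp

theorem rdt : T_RDT := by
  intro V _ _ t w hw
  have hpos : (0 : ℝ) < 2 ^ Fintype.card V := by positivity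
  have hb : ∀ y : V → Bool, 0 ≤ bi (t.eval y) := by
    intro y
    simp only [bi]
    split_ifs <;> simp
  rw [L12]
  calc ∑ S ∈ powersetCard 2 (univ : Finset V), |hat (fun y => bi (t.eval y)) S|
      ≤ ∑ S ∈ powersetCard 2 (univ : Finset V),
        (∑ y ∈ univ.filter (fun y : V → Bool => S ⊆ qv y t), bi (t.eval y)) / 2 ^ Fintype.card V :=
        Finset.sum_le_sum fun S _ => hat_le' t S
    _ = (∑ y : V → Bool, ((powersetCard 2 (univ : Finset V)).filter
          (fun S => S ⊆ qv y t)).card * bi (t.eval y)) / 2 ^ Fintype.card V := by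
        rw [← Finset.sum_div]
        congr 1
        simp only [Finset.sum_filter]
        rw [Finset.sum_comm]
        refine Finset.sum_congr rfl fun y _ => ?_
        rw [← Finset.sum_filter, Finset.sum_const, nsmul_eq_mul]
    _ ≤ (∑ y : V → Bool, (w : ℝ) ^ 2 * bi (t.eval y)) / 2 ^ Fintype.card V := by
        refine div_le_div_of_nonneg_right ?_ hpos.le
        refine Finset.sum_le_sum fun y _ => mul_le_mul_of_nonneg_right ?_ (hb y)
        have h1 : (powersetCard 2 (univ : Finset V)).filter (fun S => S ⊆ qv y t) =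
            powersetCard 2 (qv y t) := by
          ext S
          simp only [mem_filter, mem_powersetCard, subset_univ, true_and]
          tauto
        rw [h1, card_powersetCard]
        have h2 : (qv y t).card ≤ w := (card_qv y t).trans hw
        have h3 : (qv y t).card.choose 2 ≤ w ^ 2 :=
          (Nat.choose_le_pow _ _).trans (Nat.pow_le_pow_left h2 2)
        exact_mod_cast h3
    _ = (w : ℝ) ^ 2 * mn fun y => bi (t.eval y) := by
        rw [mn, ← Finset.mul_sum, mul_div_assoc]

end Pool.Agent.H70.EH.RDT
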