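import Pool.Agent.H70.EH.Targets

/-!
# YEX: the quantum algorithm works if the copies say the answer
-/

set_option autoImplicit false

namespace Pool.Agent.H70.EH

open Finset Pool.Agent.H6.NB Pool.Agent.H70.OQ

theorem yex (h1 : T_FOX) (h2 : Pool.Agent.H6.NB.T_PHB) : T_YEX := by
  intro O s b hS
  let P : (Fin (2 * s.length) → Bool) → VV (qs s) → Bool := fun u => cpx O s (List.ofFn u)
  have hcard : (Fintype.card (Fin (2 * s.length) → Bool) : ℝ) = 2 ^ (2 * s.length) := by
    rw [Fintype.card_fun, Fintype.card_bool, Fintype.card_fin]; push_cast; ring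
  have hyes : yes O s = 1 - (1 - avg (qs s) P) ^ reps s := by
    unfold yes avg
    rw [hcard, Finset.sum_congr rfl fun u _ => h1 O s (List.ofFn u)]
  have hA0 : 0 ≤ avg (qs s) P := by
    unfold avg
    positivity
  have hA1 : avg (qs s) P ≤ 1 := by
    unfold avg
    rw [div_le_one (by rw [hcard]; positivity)]
    calc ∑ u, phi (qs s) (P u) ^ 2 ≤ ∑ _u : Fin (2 * s.length) → Bool, (1 : ℝ) := by
          refine Finset.sum_le_sum fun u _ => ?_
          have := h2 (qs s) (P u)
          rw [← sq_abs]
          have h0 := abs_nonneg (phi (qs s) (P u))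
          nlinarith
      _ = Fintype.card (Fin (2 * s.length) → Bool) := by simp
  have hreps : (reps s : ℝ) = 600 * ((qs s : ℝ) + 3) ^ 2 := by
    unfold reps; push_cast; ring
  have he : eps2 (qs s) ^ 2 = 1 / (64 * ((qs s : ℝ) + 3) ^ 2) := by
    unfold eps2
    rw [div_pow, mul_pow]; norm_num
  have hq : 0 < ((qs s : ℝ) + 3) ^ 2 := by positivity
  constructor
  · intro hb
    have hA := hS.2 hb
    change eps2 (qs s) ^ 2 / 8 ≤ avg (qs s) P at hA
    rw [hyes]
    have h3 : (1 - avg (qs s) P) ^ reps s ≤ Real.exp (-(600 / 512)) := by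
      calc (1 - avg (qs s) P) ^ reps s ≤ (Real.exp (-avg (qs s) P)) ^ reps s := by
            refine pow_le_pow_left₀ (by linarith) ?_ _
            have := Real.add_one_le_exp (-avg (qs s) P)
            linarith
        _ = Real.exp (reps s * (-avg (qs s) P)) := by rw [Real.exp_nat_mul]
        _ ≤ Real.exp (-(600 / 512)) := by
            refine Real.exp_le_exp.2 ?_
            have h4 : 600 / 512 ≤ (reps s : ℝ) * avg (qs s) P := by
              calc (600 / 512 : ℝ) = 600 * ((qs s : ℝ) + 3) ^ 2 * (eps2 (qs s) ^ 2 / 8) := by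
                    rw [he]; field_simp; norm_num
                _ ≤ (reps s : ℝ) * avg (qs s) P := by
                    rw [hreps]
                    exact mul_le_mul_of_nonneg_left hA (by positivity)
            linarith
    have h5 : Real.exp (-(600 / 512)) ≤ 1 / 3 := by
      rw [Real.exp_neg]
      have h6 : (3 : ℝ) ≤ Real.exp (600 / 512) := by
        have h7 : Real.exp (600 / 512) = Real.exp 1 * Real.exp (88 / 512) := by
          rw [← Real.exp_add]; norm_num
        have h8 := Real.exp_one_gt_d9
        have h9 := Real.add_one_le_exp (88 / 512 : ℝ)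
        rw [h7]
        nlinarith
      rw [inv_eq_one_div]
      exact one_div_le_one_div_of_le (by norm_num) h6
    linarith
  · intro hb
    have hA := hS.1 hb
    change avg (qs s) P ≤ eps2 (qs s) ^ 2 / 32 at hA
    rw [hyes]
    have h3 : 1 + (reps s : ℝ) * (-avg (qs s) P) ≤ (1 + (-avg (qs s) P)) ^ reps s :=
      one_add_mul_le_pow (by linarith) _
    have h4 : (reps s : ℝ) * avg (qs s) P ≤ 1 / 3 := by
      calc (reps s : ℝ) * avg (qs s) P ≤ 600 * ((qs s : ℝ) + 3) ^ 2 * (eps2 (qs s) ^ 2 / 32) := by
            rw [hreps]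
            exact mul_le_mul_of_nonneg_left hA (by positivity)
        _ = 600 / 2048 := by rw [he]; field_simp; norm_num
        _ ≤ 1 / 3 := by norm_num
    have h5 : (1 + (-avg (qs s) P)) = 1 - avg (qs s) P := by ring
    rw [h5] at h3
    linarith

end Pool.Agent.H70.EH
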